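import Pool.Agent.H3RD.W830.RD.Stm

/-!
# RD-MAINM: chain partitions with small profile give a scheme
-/

set_option autoImplicit false

namespace Pool.Agent.W202.RD.MAINM

open Pool.Agent.W830.RD
open Finset
open scoped Classical

/-- The number of chains with at least `k` elements. -/
noncomputable def bb {α : Type} (F : Finset (Finset α)) (k : ℕ) : ℤ :=
  ((F.filter (fun C => k ≤ C.card)).card : ℤ)

lemma bb_nonneg {α : Type} (F : Finset (Finset α)) (k : ℕ) : 0 ≤ bb F k := by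
  unfold bb; positivity

lemma bb_anti {α : Type} (F : Finset (Finset α)) (k : ℕ) : bb F (k + 1) ≤ bb F k := by
  unfold bb
  have h : (F.filter (fun C => k + 1 ≤ C.card)).card ≤ (F.filter (fun C => k ≤ C.card)).card := by
    apply Finset.card_le_card
    intro C hC
    rw [Finset.mem_filter] at hC ⊢
    exact ⟨hC.1, by omega⟩
  exact_mod_cast h

lemma min_eq_sum (L a b : ℕ) (ha : a ≤ L) :
    (∑ k ∈ Finset.Icc 1 L, (if k ≤ a then 1 else 0) * (if k ≤ b then 1 else 0) : ℕ) = min a b := by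
  have h1 : ∀ k ∈ Finset.Icc 1 L, ((if k ≤ a then 1 else 0) * (if k ≤ b then 1 else 0) : ℕ)
      = if k ≤ min a b then 1 else 0 := by
    intro k _
    by_cases h1 : k ≤ a <;> by_cases h2 : k ≤ b <;> simp [h1, h2]
  rw [Finset.sum_congr rfl h1, ← Finset.sum_filter, Finset.sum_const, smul_eq_mul, mul_one]
  have h2 : (Finset.Icc 1 L).filter (fun k => k ≤ min a b) = Finset.Icc 1 (min a b) := by
    ext k
    simp only [Finset.mem_filter, Finset.mem_Icc]
    constructor
    · rintro ⟨⟨h3, _⟩, h4⟩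
      exact ⟨h3, h4⟩
    · rintro ⟨h3, h4⟩
      exact ⟨⟨h3, h4.trans ((min_le_left _ _).trans ha)⟩, h4⟩
  rw [h2, Nat.card_Icc]
  omega

lemma prof_eq {α : Type} (F : Finset (Finset α)) (L : ℕ) (hL : ∀ C ∈ F, C.card ≤ L) :
    ∑ k ∈ Finset.Icc 1 L, (bb F k) ^ 2 = (prof F : ℤ) := by
  have h1 : ∀ k ∈ Finset.Icc 1 L, (bb F k) ^ 2 =
      ((∑ C ∈ F, ∑ C' ∈ F, (if k ≤ C.card then 1 else 0) * (if k ≤ C'.card then 1 else 0) : ℕ) : ℤ)
      := by
    intro k _
    have h2 : (F.filter (fun C => k ≤ C.card)).card = ∑ C ∈ F, (if k ≤ C.card then 1 else 0) := by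
      rw [Finset.card_filter]
    unfold bb
    rw [h2, ← Finset.sum_mul_sum, pow_two]
    push_cast
    rfl
  rw [Finset.sum_congr rfl h1, ← Nat.cast_sum]
  congr 1
  rw [Finset.sum_comm]
  unfold prof
  apply Finset.sum_congr rfl
  intro C hC
  rw [Finset.sum_comm]
  apply Finset.sum_congr rfl
  intro C' _
  exact min_eq_sum L C.card C'.card (hL C hC)

/-- The union of the chains with one element. -/
noncomputable def sg {α : Type} (F : Finset (Finset α)) : Finset α :=
  (F.filter (fun C => C.card = 1)).biUnion id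

/-- The chains with at least two elements. -/
noncomputable def bg {α : Type} (F : Finset (Finset α)) : Finset (Finset α) :=
  F.filter (fun C => 2 ≤ C.card)

section part

variable {α : Type} [PartialOrder α] {F : Finset (Finset α)} {D : Finset α}

lemma card_sg (h : Part F D) : (sg F).card = (F.filter (fun C => C.card = 1)).card := by
  unfold sg
  rw [Finset.card_biUnion]
  · rw [Finset.card_eq_sum_ones]
    apply Finset.sum_congr rfl
    intro C hC
    exact (Finset.mem_filter.mp hC).2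
  · intro C hC C' hC' hne
    exact h.dj C (Finset.mem_filter.mp hC).1 C' (Finset.mem_filter.mp hC').1 hne

lemma DD_eq (h : Part F D) : DD (sg F) (bg F) = D := by
  rw [← h.un]
  unfold DD sg bg
  ext x
  simp only [Finset.mem_union, Finset.mem_biUnion, Finset.mem_filter, id]
  constructor
  · rintro (⟨C, hC, hx⟩ | ⟨C, hC, hx⟩)
    · exact ⟨C, hC.1, hx⟩
    · exact ⟨C, hC.1, hx⟩
  · rintro ⟨C, hC, hx⟩
    have h1 : 1 ≤ C.card := Finset.card_pos.mpr (h.ne C hC)
    rcases Nat.lt_or_ge C.card 2 with h2 | h2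
    · left
      exact ⟨C, ⟨hC, by omega⟩, hx⟩
    · right
      exact ⟨C, ⟨hC, h2⟩, hx⟩

lemma bb_one (h : Part F D) : bb F 1 = ((sg F).card : ℤ) + ((bg F).card : ℤ) := by
  rw [card_sg h]
  unfold bb bg
  have h1 : F.filter (fun C => 1 ≤ C.card) =
      F.filter (fun C => C.card = 1) ∪ F.filter (fun C => 2 ≤ C.card) := by
    rw [← Finset.filter_or]
    apply Finset.filter_congr
    intro C _
    omega
  rw [h1, Finset.card_union_of_disjoint]
  · push_cast
    rfl
  · rw [Finset.disjoint_filter]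
    intro C _ h2 h3
    omega

omit [PartialOrder α] in
lemma bg_filter (k : ℕ) (hk : 2 ≤ k) :
    (((bg F).filter (fun C => k ≤ C.card)).card : ℤ) = bb F k := by
  unfold bb bg
  rw [Finset.filter_filter]
  congr 2
  apply Finset.filter_congr
  intro C _
  constructor
  · intro h
    exact h.2
  · intro h
    exact ⟨by omega, h⟩

lemma bg_dj (h : Part F D) : ∀ C ∈ bg F, Disjoint C (sg F) := by
  intro C hC
  unfold bg at hC
  rw [Finset.mem_filter] at hC
  unfold sg
  rw [Finset.disjoint_biUnion_right]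
  intro C' hC'
  rw [Finset.mem_filter] at hC'
  apply h.dj C hC.1 C' hC'.1
  intro hne
  subst hne
  omega

end part

lemma mkSt {α : Type} [PartialOrder α] {D U : Finset α} {F G : Finset (Finset α)}
    (hF : Part F D) (hG : Part G U) : St (sg F) (sg G) (bg F) (bg G) where
  chP := fun _ hC => hF.ch _ (Finset.mem_filter.mp hC).1
  chQ := fun _ hC => hG.ch _ (Finset.mem_filter.mp hC).1
  cP := fun _ hC => (Finset.mem_filter.mp hC).2
  cQ := fun _ hC => (Finset.mem_filter.mp hC).2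
  dP := bg_dj hF
  dQ := bg_dj hG
  pP := fun C hC C' hC' hne =>
    hF.dj C (Finset.mem_filter.mp hC).1 C' (Finset.mem_filter.mp hC').1 hne
  pQ := fun C hC C' hC' hne =>
    hG.dj C (Finset.mem_filter.mp hC).1 C' (Finset.mem_filter.mp hC').1 hne

/-- The short chains, in integer form. -/
lemma short {α : Type} (hS : S_SHORT) (G : Finset (Finset α)) (L : ℕ)
    (hL : ∀ C ∈ G, C.card ≤ L) (n : ℤ) (hn0 : 0 ≤ n) (hn : n ≤ bb G 2) :
    ∃ J ⊆ bg G, (J.card : ℤ) = n ∧
      ((∑ C ∈ J, (C.card - 2) : ℕ) : ℤ) ≤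
        ∑ k ∈ Finset.Icc 3 L, max (n - bb G 2 + bb G k) 0 := by
  have h1 : ∀ C ∈ bg G, 2 ≤ C.card ∧ C.card ≤ L := by
    intro C hC
    have h2 := Finset.mem_filter.mp hC
    exact ⟨h2.2, hL C h2.1⟩
  obtain ⟨m, rfl⟩ := Int.eq_ofNat_of_zero_le hn0
  have h2 : m ≤ (bg G).card := by
    have h3 : (m : ℤ) ≤ ((bg G).card : ℤ) := hn
    exact_mod_cast h3
  obtain ⟨J, hJ, hJc, hJs⟩ := hS α (bg G) m L h1 h2
  refine ⟨J, hJ, by rw [hJc], ?_⟩
  have h3 : ((∑ C ∈ J, (C.card - 2) : ℕ) : ℤ) ≤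
      ((∑ k ∈ Finset.Icc 3 L,
        ((m + ((bg G).filter (fun C => k ≤ C.card)).card) - (bg G).card) : ℕ) : ℤ) := by
    exact_mod_cast hJs
  refine h3.trans ?_
  rw [Nat.cast_sum]
  apply Finset.sum_le_sum
  intro k hk
  have hk2 : 2 ≤ k := by
    have := (Finset.mem_Icc.mp hk).1
    omega
  have h4 := bg_filter (F := G) k hk2
  have h5 : bb G 2 = ((bg G).card : ℤ) := rfl
  rw [h5, ← h4]
  omega

theorem main (hI : S_IND) (hN : S_NUM) (hS : S_SHORT) : S_MAINM := by
  intro α _ D U F G N hF hG hFG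
  have hsum : ∀ C ∈ F, C.card ≤ ∑ C ∈ F, C.card := fun C hC =>
    Finset.single_le_sum (f := fun C : Finset α => C.card) (fun _ _ => Nat.zero_le _) hC
  have hsum' : ∀ C ∈ G, C.card ≤ ∑ C ∈ G, C.card := fun C hC =>
    Finset.single_le_sum (f := fun C : Finset α => C.card) (fun _ _ => Nat.zero_le _) hC
  obtain ⟨L, hL2, hLF, hLG⟩ : ∃ L : ℕ, 2 ≤ L ∧ (∀ C ∈ F, C.card ≤ L) ∧ ∀ C ∈ G, C.card ≤ L := by
    refine ⟨2 + (∑ C ∈ F, C.card) + ∑ C ∈ G, C.card, by omega, ?_, ?_⟩
    · intro C hC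
      have := hsum C hC
      omega
    · intro C hC
      have := hsum' C hC
      omega
  have hsq : ∑ k ∈ Finset.Icc 1 L, ((bb F k) ^ 2 + (bb G k) ^ 2) ≤ (N : ℤ) ^ 2 := by
    rw [Finset.sum_add_distrib, prof_eq F L hLF, prof_eq G L hLG]
    exact_mod_cast hFG
  obtain ⟨n1, n2, n3, n4, n5, n6, n7⟩ := hN (bb F) (bb G) L (N : ℤ) hL2 (by positivity)
    (fun k => ⟨bb_nonneg F k, bb_nonneg G k⟩) (fun k => ⟨bb_anti F k, bb_anti G k⟩) hsq
  have eF := bb_one hF
  have eG := bb_one hG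
  have eF2 : bb F 2 = ((bg F).card : ℤ) := rfl
  have eG2 : bb G 2 = ((bg G).card : ℤ) := rfl
  have zF := bb_nonneg F 2
  have zG := bb_nonneg G 2
  obtain ⟨J, hJ, hJc, hJs⟩ := short hS G L hLG
    (max (max (2 * bb F 1 + 2 * bb G 1 + bb F 2 + bb G 2 - 3 * (N : ℤ))
      (bb F 1 + bb G 2 - N)) 0) (le_max_right _ _)
    (max_le (max_le n5 (by linarith)) zG)
  obtain ⟨I, hI', hIc, hIs⟩ := short hS F L hLF
    (max (max (2 * bb F 1 + 2 * bb G 1 + bb F 2 + bb G 2 - 3 * (N : ℤ))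
      (bb G 1 + bb F 2 - N)) 0) (le_max_right _ _)
    (max_le (max_le n6 (by linarith)) zF)
  have ejj : jj (N : ℤ) (sg F).card (sg G).card (bg F).card (bg G).card =
      2 * bb F 1 + 2 * bb G 1 + bb F 2 + bb G 2 - 3 * (N : ℤ) := by
    rw [eF, eG, eF2, eG2]
    unfold jj exc
    ring
  have ee1 : exc (N : ℤ) (sg F).card (sg G).card (bg F).card (bg G).card - (sg G).card =
      bb F 1 + bb G 2 - N := by
    rw [eF, eG2]
    unfold exc
    ring
  have ee2 : exc (N : ℤ) (sg F).card (sg G).card (bg F).card (bg G).card - (sg F).card =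
      bb G 1 + bb F 2 - N := by
    rw [eG, eF2]
    unfold exc
    ring
  have hyp : Hyp (N : ℤ) (sg F) (sg G) (bg F) (bg G) := by
    refine ⟨mkSt hF hG, ?_, ?_, ?_, ?_, J, hJ, I, hI', ?_, ?_, ?_⟩
    · linarith
    · rw [ejj]
      linarith
    · linarith
    · rw [ejj]
      linarith
    · rw [ejj, ee1]
      exact hJc
    · rw [ejj, ee2]
      exact hIc
    · have h1 := add_le_add hJs hIs
      refine (h1.trans n7).trans ?_
      rw [eF, eG, eF2, eG2]
      unfold exc
      linarith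
  have h := hI α N (sg F) (sg G) (bg F) (bg G) hyp
  rw [DD_eq hF, DD_eq hG] at h
  exact h

end Pool.Agent.W202.RD.MAINM
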